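import Pool.Agent.Helper44.GN.Defs

set_option autoImplicit false

open Finset MeasureTheory Filter Topology Matrix
open scoped ENNReal ContDiff

namespace Pool.Agent.Helper44.GN

open Pool.Agent.Helper44.GF

variable {n m : ℕ}

theorem pjp_posdef (V : Matrix (Fin n) (Fin m) ℝ) (hV : Function.Injective V.mulVec)
    (y : Fin n → ℝ) (hy : y ∈ Og n) : (TT V V y).PosDef := by
  have h1 : (Matrix.diagonal y).PosDef := Matrix.posDef_diagonal_iff.2 hy
  have h2 := h1.conjTranspose_mul_mul_same hV
  rwa [Matrix.conjTranspose_eq_transpose_of_trivial] at h2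

theorem pjp_symm (V : Matrix (Fin n) (Fin m) ℝ) (y : Fin n → ℝ) :
    (TT V V y)ᵀ = TT V V y := by
  unfold TT
  rw [Matrix.transpose_mul, Matrix.transpose_mul, Matrix.transpose_transpose,
    Matrix.diagonal_transpose, Matrix.mul_assoc]

theorem pjp_sq (y : Fin n → ℝ) (hy : y ∈ Og n) :
    Matrix.diagonal (fun x => √(y x)) * Matrix.diagonal (fun x => √(y x))
      = Matrix.diagonal y := by
  rw [Matrix.diagonal_mul_diagonal]
  congr 1
  funext x
  exact Real.mul_self_sqrt (hy x).le

theorem st_PJP : ST_PJP := by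
  intro n m V hV y hy
  have hpos := pjp_posdef V hV y hy
  have hdet : 0 < qf V y := hpos.det_pos
  have hu : IsUnit (TT V V y).det := hdet.ne'.isUnit
  have hD : Vᵀ * (Matrix.diagonal (fun x => √(y x)) * (Matrix.diagonal (fun x => √(y x)) * V))
      = TT V V y := by
    rw [← Matrix.mul_assoc (Matrix.diagonal _) (Matrix.diagonal _) V, pjp_sq y hy,
      ← Matrix.mul_assoc]
    rfl
  refine ⟨hdet, ?_, ?_, ?_⟩
  · unfold PJ
    rw [Matrix.transpose_mul, Matrix.transpose_mul, Matrix.transpose_mul, Matrix.transpose_mul,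
      Matrix.transpose_transpose, Matrix.diagonal_transpose, Matrix.transpose_nonsing_inv,
      pjp_symm]
    simp only [Matrix.mul_assoc]
  · unfold PJ
    calc _ = Matrix.diagonal (fun x => √(y x)) * V * (TT V V y)⁻¹
          * (Vᵀ * (Matrix.diagonal (fun x => √(y x)) * (Matrix.diagonal (fun x => √(y x)) * V)))
          * (TT V V y)⁻¹ * Vᵀ * Matrix.diagonal (fun x => √(y x)) := by
          simp only [Matrix.mul_assoc]
      _ = _ := by
          rw [hD, Matrix.mul_assoc (Matrix.diagonal (fun x => √(y x)) * V) _ (TT V V y),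
            Matrix.nonsing_inv_mul _ hu, Matrix.mul_one]
  · unfold PJ
    have h1 : Matrix.diagonal (fun x => √(y x)) * V * (TT V V y)⁻¹ * Vᵀ
        * Matrix.diagonal (fun x => √(y x))
        = (Matrix.diagonal (fun x => √(y x)) * V)
          * ((TT V V y)⁻¹ * (Vᵀ * Matrix.diagonal (fun x => √(y x)))) := by
      simp only [Matrix.mul_assoc]
    rw [h1, Matrix.trace_mul_comm]
    have h2 : (TT V V y)⁻¹ * (Vᵀ * Matrix.diagonal (fun x => √(y x)))
        * (Matrix.diagonal (fun x => √(y x)) * V) = 1 := by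
      rw [← Matrix.nonsing_inv_mul _ hu, Matrix.mul_assoc]
      congr 1
      rw [Matrix.mul_assoc]
      exact hD
    rw [h2, Matrix.trace_one, Fintype.card_fin]

end Pool.Agent.Helper44.GN
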