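import Pool.Agent.Helper44.GN.Defs

set_option autoImplicit false

open Finset MeasureTheory Filter Topology Matrix
open scoped ENNReal ContDiff

namespace Pool.Agent.Helper44.GN

open Pool.Agent.Helper44.GF

theorem rep_entry {n m : ℕ} (V W : Matrix (Fin n) (Fin m) ℝ) (y : Fin n → ℝ) (i j : Fin m) :
    TT V W y i j = ∑ x, V x i * y x * W x j := by
  unfold TT
  rw [Matrix.mul_apply]
  refine Finset.sum_congr rfl fun x _ => ?_
  rw [Matrix.mul_diagonal, Matrix.transpose_apply]

theorem st_REP : ST_REP := by
  intro n m N hN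
  refine ⟨?_, ?_, ?_⟩
  · intro V hV t t' h
    apply hV
    funext i
    have h1 := congrFun h (finProdFinEquiv (i, ⟨0, hN⟩))
    have h2 : ∀ t : Fin m → ℝ, (rp N V).mulVec t (finProdFinEquiv (i, ⟨0, hN⟩))
        = V.mulVec t i := by
      intro t
      unfold rp
      simp only [Matrix.mulVec, dotProduct, Matrix.submatrix_apply, Equiv.symm_apply_apply, id]
    rw [← h2 t, ← h2 t']
    exact h1
  · intro V W y
    ext i j
    rw [rep_entry, rep_entry, ← finProdFinEquiv.sum_comp, Fintype.sum_prod_type]
    refine Finset.sum_congr rfl fun x _ => ?_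
    unfold rp Rs
    rw [Finset.mul_sum, Finset.sum_mul]
    refine Finset.sum_congr rfl fun k _ => ?_
    simp only [Matrix.submatrix_apply, Equiv.symm_apply_apply, id]
  · intro y hy i
    have : Nonempty (Fin N) := ⟨⟨0, hN⟩⟩
    exact Finset.sum_pos (fun k _ => hy _) Finset.univ_nonempty

end Pool.Agent.Helper44.GN
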