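import Pool.Agent.Helper44.GN.Defs

set_option autoImplicit false

open Finset MeasureTheory Filter Topology Matrix
open scoped ENNReal ContDiff

namespace Pool.Agent.Helper44.GN

open Pool.Agent.Helper44.GF

theorem scl_MM {n m : ℕ} (Λ : ℝ → ℝ) (c : ℝ) (hc : 0 < c) (V : Matrix (Fin n) (Fin m) ℝ) :
    MM (fun u => Λ (c * u)) V = |((√c) ^ m)⁻¹| * MM Λ V := by
  unfold MM
  have h := MeasureTheory.Measure.integral_comp_smul (volume : Measure (Fin m → ℝ))
    (fun t : Fin m → ℝ => Real.exp (-∑ i, Λ ((V.mulVec t i) ^ 2))) (√c)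
  rw [Module.finrank_fin_fun, smul_eq_mul] at h
  rw [← h]
  refine integral_congr_ae (Filter.Eventually.of_forall fun t => ?_)
  change Real.exp _ = Real.exp _
  congr 2
  refine Finset.sum_congr rfl fun i _ => ?_
  rw [Matrix.mulVec_smul, Pi.smul_apply, smul_eq_mul, mul_pow, Real.sq_sqrt hc.le]

theorem st_SCL : ST_SCL := by
  intro m n Λ c hc hF K F θ hθ hcyc i
  have h := hF K F θ hθ hcyc i
  have hk : 0 < |((√c) ^ (m + 1))⁻¹| :=
    abs_pos.2 (inv_ne_zero (pow_ne_zero _ (Real.sqrt_ne_zero'.2 hc)))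
  simp only [scl_MM Λ c hc]
  have e : ∀ j, (volume (F j).dom).toReal / (|((√c) ^ (m + 1))⁻¹| * MM Λ (F j).mat)
      = (volume (F j).dom).toReal / MM Λ (F j).mat * |((√c) ^ (m + 1))⁻¹|⁻¹ := by
    intro j
    rw [div_mul_eq_div_div_swap]
    rfl
  simp only [e]
  rw [← Finset.sum_mul]
  exact mul_le_mul_of_nonneg_right h (inv_nonneg.2 hk.le)

end Pool.Agent.Helper44.GN
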