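import Pool.Agent.Helper44.GN.Defs

set_option autoImplicit false

open Finset MeasureTheory Filter Topology Matrix
open scoped ENNReal ContDiff

namespace Pool.Agent.Helper44.GN

open Pool.Agent.Helper44.GF

theorem st_EXT : ST_EXT := by
  intro d n B hB
  have hs : LinearIndepOn ℝ id (Set.range (fun i => B i)) := hB.linearIndepOn_id
  let b := Module.Basis.extend hs
  let e : (hs.extend (Set.subset_univ _)) ≃ Fin n := b.indexEquiv (Pi.basisFun ℝ (Fin n))
  have hmem : ∀ i : Fin d, B i ∈ hs.extend (Set.subset_univ (Set.range (fun i => B i))) :=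
    fun i => hs.subset_extend _ ⟨i, rfl⟩
  have hA : LinearIndependent ℝ (fun k : Fin n => b (e.symm k)) :=
    b.linearIndependent.comp _ e.symm.injective
  refine ⟨Matrix.of fun k => b (e.symm k), fun i => e ⟨B i, hmem i⟩, ?_, ?_, ?_⟩
  · intro i j hij
    have h1 := e.injective hij
    exact hB.injective (congrArg Subtype.val h1)
  · have h1 : IsUnit (Matrix.of fun k => b (e.symm k)) :=
      Matrix.linearIndependent_rows_iff_isUnit.1 hA
    exact ((Matrix.isUnit_iff_isUnit_det _).1 h1).ne_zero
  · intro i j
    have h1 : b (e.symm (e ⟨B i, hmem i⟩)) = B i := by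
      rw [Equiv.symm_apply_apply]
      exact Module.Basis.extend_apply_self hs _
    exact congrFun h1 j

end Pool.Agent.Helper44.GN
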